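import Pool.Agent.H31.DP.Targets

/-!
Major arcs, a single scale.
-/

set_option autoImplicit false

open Finset

namespace Pool.Agent.H13.DP

open Pool.Agent.H31.DP

lemma ee_add (x y : ℝ) : ee (x + y) = ee x * ee y := by
  unfold ee
  rw [← Complex.exp_add]
  congr 1
  push_cast
  ring

lemma norm_ee (x : ℝ) : ‖ee x‖ = 1 := by
  unfold ee
  have : (2 * Real.pi * Complex.I * x : ℂ) = ((2 * Real.pi * x : ℝ) : ℂ) * Complex.I := by
    push_cast
    ring
  rw [this, Complex.norm_exp_ofReal_mul_I]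

lemma ee_int (m : ℤ) : ee m = 1 := by
  unfold ee
  have : (2 * Real.pi * Complex.I * ((m : ℝ) : ℂ) : ℂ) = (m : ℂ) * (2 * Real.pi * Complex.I) := by
    push_cast
    ring
  rw [this, Complex.exp_int_mul_two_pi_mul_I]

lemma ee_sub_one (x : ℝ) : ‖ee x - 1‖ ≤ 2 * Real.pi * |x| := by
  have h := Real.norm_exp_I_mul_ofReal_sub_one_le (x := 2 * Real.pi * x)
  have h1 : (2 * Real.pi * Complex.I * x : ℂ) = Complex.I * ((2 * Real.pi * x : ℝ) : ℂ) := by
    push_cast
    ring
  unfold ee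
  rw [h1]
  refine h.trans ?_
  rw [Real.norm_eq_abs, abs_mul, abs_of_nonneg (by positivity)]

lemma ee_sub (x y : ℝ) : ‖ee x - ee y‖ ≤ 2 * Real.pi * |x - y| := by
  have h : ee x - ee y = ee y * (ee (x - y) - 1) := by
    rw [mul_sub, mul_one, ← ee_add]
    congr 2
    ring
  rw [h, norm_mul, norm_ee, one_mul]
  exact ee_sub_one _

lemma abel (g w : ℕ → ℂ) (N : ℕ) :
    ∑ n ∈ Icc 1 N, g n * w n = (∑ n ∈ Icc 1 N, g n) * w N -
      ∑ n ∈ range N, (∑ m ∈ Icc 1 n, g m) * (w (n + 1) - w n) := by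
  induction N with
  | zero => simp
  | succ N ih =>
    rw [Finset.sum_Icc_succ_top (by omega), ih, Finset.sum_Icc_succ_top (by omega),
      Finset.sum_range_succ]
    ring

lemma abel_bound (g w : ℕ → ℂ) (N : ℕ) (T D : ℝ)
    (hg : ∀ k ≤ N, ‖∑ n ∈ Icc 1 k, g n‖ ≤ T) (hw : ∀ n, ‖w n‖ ≤ 1)
    (hwd : ∀ n, ‖w (n + 1) - w n‖ ≤ D) :
    ‖∑ n ∈ Icc 1 N, g n * w n‖ ≤ (1 + N * D) * T := by
  have hT : 0 ≤ T := (norm_nonneg _).trans (hg N le_rfl)
  rw [abel]
  have h1 : ‖(∑ n ∈ Icc 1 N, g n) * w N‖ ≤ T := by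
    rw [norm_mul]
    calc _ ≤ T * 1 := mul_le_mul (hg N le_rfl) (hw N) (norm_nonneg _) hT
      _ = T := mul_one T
  have h2 : ‖∑ n ∈ range N, (∑ m ∈ Icc 1 n, g m) * (w (n + 1) - w n)‖ ≤ N * (T * D) := by
    refine (norm_sum_le _ _).trans ?_
    calc ∑ n ∈ range N, ‖(∑ m ∈ Icc 1 n, g m) * (w (n + 1) - w n)‖
        ≤ ∑ _n ∈ range N, T * D := by
          refine Finset.sum_le_sum fun n hn => ?_
          rw [norm_mul]
          exact mul_le_mul (hg n (Finset.mem_range.1 hn).le) (hwd n) (norm_nonneg _) hT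
      _ = N * (T * D) := by simp
  calc _ ≤ _ := norm_sub_le _ _
    _ ≤ T + N * (T * D) := add_le_add h1 h2
    _ = _ := by ring

theorem pf_M1 : StatementM1 := by
  intro f hf K J N η hK hJ hN hsum θ hmin
  unfold Minor at hmin
  push Not at hmin
  obtain ⟨q, hq1, hqK, a, hqa⟩ := hmin
  have hq0 : (0 : ℝ) < q := by exact_mod_cast hq1
  have hq1' : (1 : ℝ) ≤ q := by exact_mod_cast hq1
  have hqK' : (q : ℝ) ≤ K := by exact_mod_cast hqK
  have hN0 : (0 : ℝ) < N := by exact_mod_cast hN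
  have hJ0 : (0 : ℝ) < J := by exact_mod_cast hJ
  have hK0 : (0 : ℝ) < K := by exact_mod_cast hK
  have hηN : 0 ≤ η * N := (norm_nonneg _).trans (hsum 1 le_rfl hK 0 one_pos 0 (Nat.zero_le _))
  set b : ℝ := θ - a / q with hb
  set g : ℕ → ℂ := fun n => f n * ee (n * (a / q)) with hg
  have hgn : ∀ n, ‖g n‖ ≤ 1 := by
    intro n
    rw [hg]
    simp only [norm_mul, norm_ee, mul_one]
    exact hf n
  -- the rotation depends on the residue class
  have h3 : (q : ℝ) * (a / q) = a := by field_simp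
  have hrot : ∀ n : ℕ, ee (n * (a / q)) = ee ((n % q : ℕ) * (a / q)) := by
    intro n
    obtain ⟨m, hm⟩ : ∃ m, m = n / q := ⟨_, rfl⟩
    have h1 : (n : ℝ) = (n % q : ℕ) + q * (m : ℕ) := by
      rw [hm]
      exact_mod_cast (Nat.mod_add_div n q).symm
    have h2 : (n : ℝ) * (a / q) = (n % q : ℕ) * (a / q) + (((m : ℤ) * a : ℤ) : ℝ) := by
      calc (n : ℝ) * (a / q) = ((n % q : ℕ) + q * (m : ℕ)) * (a / q) := by rw [← h1]
        _ = ((n % q : ℕ) : ℝ) * (a / q) + (m : ℕ) * (q * (a / q)) := by ring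
        _ = _ := by
          rw [h3]
          push_cast
          ring
    rw [h2, ee_add, ee_int, mul_one]
  -- a class
  have hclass : ∀ i ≤ J, ‖∑ n ∈ Icc 1 (i * N / J), g n‖ ≤ K * η * N := by
    intro i hi
    rw [← Finset.sum_fiberwise_of_maps_to (s := Icc 1 (i * N / J)) (t := range q)
      (g := fun n => n % q) (fun n _ => Finset.mem_range.2 (Nat.mod_lt _ hq1))]
    calc _ ≤ ∑ n₀ ∈ range q, ‖∑ n ∈ Icc 1 (i * N / J) with n % q = n₀, g n‖ := norm_sum_le _ _
      _ ≤ ∑ _n₀ ∈ range q, η * N := by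
          refine Finset.sum_le_sum fun n₀ hn₀ => ?_
          rw [Finset.mem_range] at hn₀
          have h4 : ∑ n ∈ Icc 1 (i * N / J) with n % q = n₀, g n =
              (∑ n ∈ (Icc 1 (i * N / J)).filter (fun n : ℕ => n ≡ n₀ [MOD q]), f n) *
                ee ((n₀ : ℕ) * (a / q)) := by
            rw [Finset.sum_mul]
            refine Finset.sum_congr ?_ ?_
            · refine Finset.filter_congr fun n _ => ?_
              unfold Nat.ModEq
              rw [Nat.mod_eq_of_lt hn₀]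
            · intro n hn
              rw [Finset.mem_filter] at hn
              have h5 : n % q = n₀ := by
                have := hn.2
                unfold Nat.ModEq at this
                rwa [Nat.mod_eq_of_lt hn₀] at this
              rw [hg]
              simp only
              rw [hrot n, h5]
          rw [h4, norm_mul, norm_ee, mul_one]
          exact hsum q hq1 hqK n₀ hn₀ i hi
      _ = q * (η * N) := by simp
      _ ≤ K * (η * N) := mul_le_mul_of_nonneg_right hqK' hηN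
      _ = _ := by ring
  -- the partial sums
  have hB : ∀ k ≤ N, ‖∑ n ∈ Icc 1 k, g n‖ ≤ K * η * N + N / J + 1 := by
    intro k hk
    set i := k * J / N with hi
    set G := i * N / J with hG
    have hiJ : i ≤ J := by
      rw [hi]
      exact Nat.div_le_of_le_mul (Nat.mul_le_mul_right J hk)
    have hGk : G ≤ k := by
      rw [hG]
      refine Nat.div_le_of_le_mul ?_
      calc i * N ≤ k * J := Nat.div_mul_le_self _ _
        _ = J * k := Nat.mul_comm _ _
    have h5 : k * J < N * (i + 1) := Nat.lt_mul_div_succ _ hN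
    have h6 : i * N < J * (G + 1) := Nat.lt_mul_div_succ _ hJ
    have h7 : (k : ℝ) * J < J * (G + 1) + N := by
      have h8 : ((k * J : ℕ) : ℝ) < ((N * (i + 1) : ℕ) : ℝ) := by exact_mod_cast h5
      have h9 : ((i * N : ℕ) : ℝ) < ((J * (G + 1) : ℕ) : ℝ) := by exact_mod_cast h6
      push_cast at h8 h9
      linarith
    have h8 : (k : ℝ) - G ≤ N / J + 1 := by
      have h9 : ((k : ℝ) - G - 1) * J ≤ N := by linarith
      have h10 : (k : ℝ) - G - 1 ≤ N / J := by
        rw [le_div_iff₀ hJ0]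
        exact h9
      linarith
    have hsub : Icc 1 G ⊆ Icc 1 k := Finset.Icc_subset_Icc_right hGk
    rw [← Finset.sum_sdiff hsub]
    have h11 : ‖∑ n ∈ Icc 1 k \ Icc 1 G, g n‖ ≤ (k : ℝ) - G := by
      calc _ ≤ ∑ n ∈ Icc 1 k \ Icc 1 G, ‖g n‖ := norm_sum_le _ _
        _ ≤ ∑ _n ∈ Icc 1 k \ Icc 1 G, (1 : ℝ) := Finset.sum_le_sum fun n _ => hgn n
        _ = (k : ℝ) - G := by
          rw [Finset.sum_const, nsmul_eq_mul, mul_one, Finset.card_sdiff_of_subset hsub,
            Nat.card_Icc, Nat.card_Icc, Nat.add_sub_cancel, Nat.add_sub_cancel, Nat.cast_sub hGk]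
    calc _ ≤ _ := norm_add_le _ _
      _ ≤ ((k : ℝ) - G) + K * η * N := add_le_add h11 (hclass i hiJ)
      _ ≤ _ := by linarith
  -- the size of `b`
  have hbN : N * |b| ≤ K := by
    have h4 : (q : ℝ) * b = q * θ - a := by
      rw [hb, mul_sub, h3]
    have h5 : |b| ≤ |(q : ℝ) * θ - a| := by
      rw [← h4, abs_mul, abs_of_pos hq0]
      exact le_mul_of_one_le_left (abs_nonneg _) hq1'
    have h6 : N * |b| ≤ N * |(q : ℝ) * θ - a| := mul_le_mul_of_nonneg_left h5 hN0.le
    linarith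
  have hsplit : ∑ n ∈ Icc 1 N, f n * ee (n * θ) = ∑ n ∈ Icc 1 N, g n * ee (n * b) := by
    refine Finset.sum_congr rfl fun n _ => ?_
    rw [hg]
    simp only
    rw [mul_assoc, ← ee_add]
    congr 2
    rw [hb]
    ring
  rw [hsplit]
  have hT : 0 ≤ K * η * N + N / J + 1 := (norm_nonneg _).trans (hB N le_rfl)
  have h1 := abel_bound g (fun n => ee (n * b)) N (K * η * N + N / J + 1) (2 * Real.pi * |b|)
    hB (fun n => (norm_ee _).le) (fun n => by
      have h4 := ee_sub ((n + 1 : ℕ) * b) (n * b)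
      have h5 : ((n + 1 : ℕ) : ℝ) * b - n * b = b := by
        push_cast
        ring
      rwa [h5] at h4)
  refine h1.trans (mul_le_mul_of_nonneg_right ?_ hT)
  have h6 : N * (2 * Real.pi * |b|) = 2 * Real.pi * (N * |b|) := by ring
  rw [h6]
  have := mul_le_mul_of_nonneg_left hbN (by positivity : (0 : ℝ) ≤ 2 * Real.pi)
  linarith

end Pool.Agent.H13.DP
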